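import Pool.Agent.Helper15.T5.Stmts

set_option autoImplicit false

/-!
MP_2f9829_co, module END: the abstract form of the method. Moments on the cycle classes and the
polynomials of HPOL.
-/

open Finset MeasureTheory Filter Topology Polynomial

namespace Pool.Agent.Helper36.T5

open Pool.Agent.Helper15.T4 Pool.Agent.Helper46.T5 Pool.Agent.Helper15.T5

/-- The value of the cycle class. -/
noncomputable def cz (l t : ℕ → ℝ) (m : ℕ) (z : Fin m → ℕ) : ℝ :=
  ∏ k : Fin m, (t k ^ z k * Real.exp (-(l k * (t k - 1))))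

theorem cz_pos (l t : ℕ → ℝ) (m : ℕ) (z : Fin m → ℕ) (h : ∀ k : Fin m, 0 < t k ∨ z k = 0) :
    0 < cz l t m z := by
  unfold cz
  refine Finset.prod_pos fun k _ => mul_pos ?_ (Real.exp_pos _)
  rcases h k with h | h
  · exact pow_pos h _
  · rw [h, pow_zero]
    exact one_pos

/-- One factor. -/
theorem factor_id (l t : ℝ) (z K : ℕ) :
    Real.exp (l * (t ^ K - 1 - K * (t - 1))) * po (l * t ^ K) z =
      (t ^ z * Real.exp (-(l * (t - 1)))) ^ K * po l z := by
  unfold po
  have h2 : (t ^ z) ^ K = (t ^ K) ^ z := by rw [← pow_mul, ← pow_mul, mul_comm]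
  rw [mul_pow (t ^ z), ← Real.exp_nat_mul, mul_pow l, ← h2]
  have h3 : Real.exp (l * (t ^ K - 1 - K * (t - 1))) * Real.exp (-(l * t ^ K)) =
      Real.exp (K * -(l * (t - 1))) * Real.exp (-l) := by
    rw [← Real.exp_add, ← Real.exp_add]
    congr 1
    ring
  calc Real.exp (l * (t ^ K - 1 - K * (t - 1))) *
        (Real.exp (-(l * t ^ K)) * (l ^ z * (t ^ z) ^ K) / (z.factorial : ℝ))
      = (Real.exp (l * (t ^ K - 1 - K * (t - 1))) * Real.exp (-(l * t ^ K))) *
          (l ^ z * (t ^ z) ^ K) / (z.factorial : ℝ) := by ring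
    _ = _ := by rw [h3]; ring

/-- The tails of the exponents. -/
noncomputable def tail (l t : ℕ → ℝ) (K m : ℕ) : ℝ :=
  ∑' k : ℕ, l (k + m) * (t (k + m) ^ K - 1 - K * (t (k + m) - 1))

theorem class_id (l t : ℕ → ℝ) (K m : ℕ) (z : Fin m → ℕ)
    (hs : Summable (fun k : ℕ => l k * (t k ^ K - 1 - K * (t k - 1)))) :
    Real.exp (∑' k : ℕ, l k * (t k ^ K - 1 - K * (t k - 1))) * ∏ k : Fin m, po (l k * t k ^ K) (z k) =
      cz l t m z ^ K * (∏ k : Fin m, po (l k) (z k)) * Real.exp (tail l t K m) := by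
  rw [← hs.sum_add_tsum_nat_add m, Real.exp_add, ← Fin.sum_univ_eq_sum_range
    (fun k => l k * (t k ^ K - 1 - K * (t k - 1))) m, Real.exp_sum]
  have h1 : (∏ k : Fin m, Real.exp (l k * (t k ^ K - 1 - K * (t k - 1)))) *
      ∏ k : Fin m, po (l k * t k ^ K) (z k) = cz l t m z ^ K * ∏ k : Fin m, po (l k) (z k) := by
    unfold cz
    rw [← Finset.prod_mul_distrib, ← Finset.prod_pow, ← Finset.prod_mul_distrib]
    exact Finset.prod_congr rfl fun k _ => factor_id _ _ _ _
  rw [← h1]
  unfold tail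
  ring

theorem tail_tendsto (l t : ℕ → ℝ) (K : ℕ) :
    Tendsto (fun m => tail l t K m) atTop (𝓝 0) := by
  unfold tail
  exact tendsto_sum_nat_add (fun k => l k * (t k ^ K - 1 - K * (t k - 1)))

/-- The Poisson masses sum to one. -/
theorem po_tendsto (a : ℝ) : Tendsto (fun B : ℕ => ∑ j ∈ range B, po a j) atTop (𝓝 1) := by
  have h := (NormedSpace.expSeries_div_hasSum_exp (𝔸 := ℝ) a).tendsto_sum_nat
  have h2 := h.const_mul (Real.exp (-a))
  have h3 : Real.exp (-a) * NormedSpace.exp a = 1 := by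
    rw [← Real.exp_eq_exp_ℝ, ← Real.exp_add]
    simp
  rw [h3] at h2
  refine h2.congr fun B => ?_
  rw [Finset.mul_sum]
  refine Finset.sum_congr rfl fun j _ => ?_
  unfold po
  ring

theorem po_nonneg (a : ℝ) (ha : 0 ≤ a) (z : ℕ) : 0 ≤ po a z := by
  unfold po
  positivity

theorem box_tendsto (l : ℕ → ℝ) (m : ℕ) :
    Tendsto (fun B : ℕ => ∑ z ∈ Fintype.piFinset (fun _ : Fin m => range B),
      ∏ k : Fin m, po (l k) (z k)) atTop (𝓝 1) := by
  have h : ∀ B : ℕ, ∑ z ∈ Fintype.piFinset (fun _ : Fin m => range B),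
      ∏ k : Fin m, po (l k) (z k) = ∏ k : Fin m, ∑ j ∈ range B, po (l k) j := by
    intro B
    rw [Finset.prod_univ_sum]
  simp_rw [h]
  have h2 := tendsto_finsetProd (univ : Finset (Fin m)) (fun k _ => po_tendsto (l (k : ℕ)))
  simpa using h2

theorem fiber_card {α β : Type} [DecidableEq β] (S : Finset α) (F : Finset β) (Z : α → β) :
    ∑ z ∈ F, (S.filter (fun x => Z x = z)).card = (S.filter (fun x => Z x ∈ F)).card := by
  rw [Finset.card_eq_sum_card_fiberwise (s := S.filter (fun x => Z x ∈ F)) (f := Z) (t := F)]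
  · refine Finset.sum_congr rfl fun z hz => ?_
    refine congrArg Finset.card ?_
    ext x
    simp only [Finset.mem_filter]
    constructor
    · rintro ⟨h1, h2⟩
      exact ⟨⟨h1, h2 ▸ hz⟩, h2⟩
    · rintro ⟨⟨h1, _⟩, h2⟩
      exact ⟨h1, h2⟩
  · intro x hx
    exact (Finset.mem_filter.mp hx).2

open Classical in
theorem st_END (hH : ST_HPOL) : ST_END := by
  intro A S G Y Z l t g hl ht hs hS hY hmom hG hGZ
  have hs0 : ∀ N, 0 ≤ (((G N).filter (fun x => Y N x = 0)).card : ℝ) / ((S N).card : ℝ) :=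
    fun N => by positivity
  refine tendsto_order.mpr ⟨fun a ha => Eventually.of_forall fun N => lt_of_lt_of_le ha (hs0 N), ?_⟩
  intro ε' hε'
  set ε : ℝ := ε' / 4 with hε
  have hε0 : 0 < ε := by positivity
  obtain ⟨f, hf0, hf1, hf2⟩ := hH ε hε0
  -- choose m
  have hm : Tendsto (fun m => ∑ K ∈ range (f.natDegree + 1), f.coeff K * df K *
      Real.exp (tail l t K m)) atTop (𝓝 (∑ K ∈ range (f.natDegree + 1), f.coeff K * df K)) := by
    refine tendsto_finsetSum _ fun K _ => ?_
    have := ((Real.continuous_exp.tendsto 0).comp (tail_tendsto l t K)).const_mul (f.coeff K * df K)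
    simpa using this
  obtain ⟨m, hm1⟩ := (hm.eventually (gt_mem_nhds (lt_of_le_of_lt hf2 (by linarith : ε < 2 * ε)))).exists
  -- choose the box
  obtain ⟨B, hB⟩ := ((box_tendsto l m).eventually (lt_mem_nhds (by linarith : 1 - ε < 1))).exists
  set F : Finset (Fin m → ℕ) := Fintype.piFinset (fun _ : Fin m => range B) with hF
  set F' : Finset (Fin m → ℕ) := F.filter (fun z => ∀ k : Fin m, (k : ℕ) < g → z k = 0) with hF'
  have hpos : ∀ z ∈ F', ∀ k : Fin m, 0 < t k ∨ z k = 0 := by
    intro z hz k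
    by_cases hk : (k : ℕ) < g
    · exact Or.inr ((Finset.mem_filter.mp hz).2 k hk)
    · exact Or.inl (ht k (not_lt.mp hk))
  have hpp : ∀ z : Fin m → ℕ, 0 ≤ ∏ k : Fin m, po (l k) (z k) :=
    fun z => Finset.prod_nonneg fun k _ => po_nonneg _ (hl k).le _
  -- limits
  have hlim1 : ∀ z ∈ F', Tendsto (fun N => (∑ x ∈ (S N).filter (fun x => Z N m x = z),
      f.eval (Y N x / cz l t m z)) / ((S N).card : ℝ)) atTop
      (𝓝 ((∏ k : Fin m, po (l k) (z k)) * ∑ K ∈ range (f.natDegree + 1), f.coeff K * df K *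
        Real.exp (tail l t K m))) := by
    intro z hz
    have hc := cz_pos l t m z (hpos z hz)
    have h1 : Tendsto (fun N => ∑ K ∈ range (f.natDegree + 1), f.coeff K / cz l t m z ^ K *
        ((∑ x ∈ (S N).filter (fun x => Z N m x = z), Y N x ^ K) / ((S N).card : ℝ))) atTop
        (𝓝 (∑ K ∈ range (f.natDegree + 1), f.coeff K / cz l t m z ^ K *
          (df K * Real.exp (∑' k : ℕ, l k * (t k ^ K - 1 - K * (t k - 1))) *
            ∏ k : Fin m, po (l k * t k ^ K) (z k)))) :=
      tendsto_finsetSum _ fun K _ => (hmom K m z).const_mul _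
    have h2 : (∑ K ∈ range (f.natDegree + 1), f.coeff K / cz l t m z ^ K *
          (df K * Real.exp (∑' k : ℕ, l k * (t k ^ K - 1 - K * (t k - 1))) *
            ∏ k : Fin m, po (l k * t k ^ K) (z k))) =
        (∏ k : Fin m, po (l k) (z k)) * ∑ K ∈ range (f.natDegree + 1), f.coeff K * df K *
          Real.exp (tail l t K m) := by
      rw [Finset.mul_sum]
      refine Finset.sum_congr rfl fun K _ => ?_
      rw [mul_assoc (df K), class_id l t K m z (hs K)]
      have := (pow_pos hc K).ne'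
      field_simp
    rw [h2] at h1
    refine h1.congr fun N => ?_
    have h3 : ∀ x, f.eval (Y N x / cz l t m z) = ∑ K ∈ range (f.natDegree + 1),
        f.coeff K / cz l t m z ^ K * Y N x ^ K := by
      intro x
      rw [eval_eq_sum_range]
      refine Finset.sum_congr rfl fun K _ => ?_
      rw [div_pow]
      ring
    simp_rw [h3]
    rw [Finset.sum_comm, Finset.sum_div]
    refine Finset.sum_congr rfl fun K _ => ?_
    rw [← Finset.mul_sum]
    ring
  have hlim2 : ∀ z : Fin m → ℕ, Tendsto (fun N => (((S N).filter (fun x => Z N m x = z)).card : ℝ) /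
      ((S N).card : ℝ)) atTop (𝓝 (∏ k : Fin m, po (l k) (z k))) := by
    intro z
    have h := hmom 0 m z
    simpa [df] using h
  have hL1 := tendsto_finsetSum F' hlim1
  have hL2 := tendsto_finsetSum F (fun z _ => hlim2 z)
  -- the limit of the bound
  have hsum1 : ∑ z ∈ F', ((∏ k : Fin m, po (l k) (z k)) * ∑ K ∈ range (f.natDegree + 1),
      f.coeff K * df K * Real.exp (tail l t K m)) ≤ 2 * ε := by
    rw [← Finset.sum_mul]
    have h1 : ∑ z ∈ F', ∏ k : Fin m, po (l k) (z k) ≤ 1 := by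
      calc ∑ z ∈ F', ∏ k : Fin m, po (l k) (z k) ≤ ∑ z ∈ F, ∏ k : Fin m, po (l k) (z k) :=
            Finset.sum_le_sum_of_subset_of_nonneg (Finset.filter_subset _ _) fun z _ _ => hpp z
        _ ≤ 1 := by
          refine le_of_tendsto' hL2 fun N => ?_
          rw [← Finset.sum_div]
          refine div_le_one_of_le₀ ?_ (Nat.cast_nonneg _)
          have : ∑ z ∈ F, (((S N).filter (fun x => Z N m x = z)).card : ℝ) =
              ((∑ z ∈ F, ((S N).filter (fun x => Z N m x = z)).card : ℕ) : ℝ) := by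
            push_cast
            rfl
          rw [this]
          rw [fiber_card (S N) F (fun x => Z N m x)]
          exact_mod_cast Finset.card_filter_le _ _
    have h0 : 0 ≤ ∑ z ∈ F', ∏ k : Fin m, po (l k) (z k) := Finset.sum_nonneg fun z _ => hpp z
    nlinarith
  have hev := (hL1.add (hL2.const_sub 1)).eventually (gt_mem_nhds
    (show (∑ z ∈ F', ((∏ k : Fin m, po (l k) (z k)) * ∑ K ∈ range (f.natDegree + 1),
      f.coeff K * df K * Real.exp (tail l t K m))) +
        (1 - ∑ z ∈ F, ∏ k : Fin m, po (l k) (z k)) < ε' by linarith))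
  filter_upwards [hev, hS] with N hN hSN
  refine lt_of_le_of_lt ?_ hN
  have hSN' : (0 : ℝ) < (S N).card := by exact_mod_cast hSN
  rw [div_le_iff₀ hSN', add_mul, sub_mul, one_mul, ← Finset.sum_div, ← Finset.sum_div,
    div_mul_cancel₀ _ hSN'.ne', div_mul_cancel₀ _ hSN'.ne']
  -- counting
  have hcount : (((G N).filter (fun x => Y N x = 0)).card : ℝ) ≤
      ∑ z ∈ F', (((S N).filter (fun x => Z N m x = z ∧ Y N x = 0)).card : ℝ) +
        (((S N).filter (fun x => Z N m x ∉ F)).card : ℝ) := by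
    have h1 : (G N).filter (fun x => Y N x = 0) ⊆
        (F'.biUnion (fun z => (S N).filter (fun x => Z N m x = z ∧ Y N x = 0))) ∪
          (S N).filter (fun x => Z N m x ∉ F) := by
      intro x hx
      rw [Finset.mem_filter] at hx
      rw [Finset.mem_union, Finset.mem_biUnion, Finset.mem_filter]
      by_cases hxF : Z N m x ∈ F
      · refine Or.inl ⟨Z N m x, ?_, ?_⟩
        · exact Finset.mem_filter.mpr ⟨hxF, fun k hk => hGZ N m x hx.1 k hk⟩
        · exact Finset.mem_filter.mpr ⟨hG N hx.1, rfl, hx.2⟩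
      · exact Or.inr ⟨hG N hx.1, hxF⟩
    have h2 := (Finset.card_le_card h1).trans ((Finset.card_union_le _ _).trans
      (Nat.add_le_add_right Finset.card_biUnion_le _))
    exact_mod_cast h2
  have hcomp : (((S N).filter (fun x => Z N m x ∉ F)).card : ℝ) =
      ((S N).card : ℝ) - ∑ z ∈ F, (((S N).filter (fun x => Z N m x = z)).card : ℝ) := by
    have h1 := fiber_card (S N) F (fun x => Z N m x)
    have h2 := Finset.card_filter_add_card_filter_not (s := S N) (fun x => Z N m x ∈ F)
    have h3 : (∑ z ∈ F, (((S N).filter (fun x => Z N m x = z)).card : ℝ)) =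
        (((S N).filter (fun x => Z N m x ∈ F)).card : ℝ) := by
      rw [← h1]
      push_cast
      rfl
    rw [h3, eq_sub_iff_add_eq, add_comm]
    exact_mod_cast h2
  rw [hcomp] at hcount
  refine hcount.trans (add_le_add (Finset.sum_le_sum fun z hz => ?_) le_rfl)
  have hc := cz_pos l t m z (hpos z hz)
  calc (((S N).filter (fun x => Z N m x = z ∧ Y N x = 0)).card : ℝ)
      = ∑ x ∈ (S N).filter (fun x => Z N m x = z ∧ Y N x = 0), (1 : ℝ) := by simp
    _ = ∑ x ∈ (S N).filter (fun x => Z N m x = z ∧ Y N x = 0), f.eval (Y N x / cz l t m z) := by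
        refine Finset.sum_congr rfl fun x hx => ?_
        rw [(Finset.mem_filter.mp hx).2.2, zero_div, hf1]
    _ ≤ ∑ x ∈ (S N).filter (fun x => Z N m x = z), f.eval (Y N x / cz l t m z) := by
        refine Finset.sum_le_sum_of_subset_of_nonneg ?_ ?_
        · intro x hx
          rw [Finset.mem_filter] at hx ⊢
          exact ⟨hx.1, hx.2.1⟩
        · intro x _ _
          exact hf0 _ (div_nonneg (hY N x) hc.le)

end Pool.Agent.Helper36.T5
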