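import Pool.Agent.Helper15.T5.Stmts

set_option autoImplicit false

/-!
MP_2f9829_co, module HPOL: nonnegative polynomials with value `1` at `0` and small Gaussian mean
(squares of `He_(2n+1) (x) / x` as polynomials in `x ^ 2`).
-/

open Finset MeasureTheory Filter Topology Polynomial

namespace Pool.Agent.Helper36.T5

open Pool.Agent.Helper15.T4 Pool.Agent.Helper46.T5 Pool.Agent.Helper15.T5

theorem df_pos (K : ℕ) : 0 < df K := by
  unfold df
  exact Finset.prod_pos fun i _ => by positivity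

theorem df_succ (K : ℕ) : df (K + 1) = df K * (2 * (K : ℝ) + 1) := by
  unfold df
  rw [Finset.prod_range_succ]

theorem df_zero : df 0 = 1 := by simp [df]

/-- The moment functional. -/
noncomputable def Lf : ℝ[X] →ₗ[ℝ] ℝ := lsum (fun K => (df K) • (LinearMap.id : ℝ →ₗ[ℝ] ℝ))

theorem Lf_eq (f : ℝ[X]) : Lf f = ∑ K ∈ range (f.natDegree + 1), f.coeff K * df K := by
  unfold Lf
  show f.sum _ = _
  rw [Polynomial.sum_over_range]
  · refine Finset.sum_congr rfl fun K _ => ?_
    simp [mul_comm]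
  · intro n
    simp

theorem Lf_monomial (k : ℕ) (a : ℝ) : Lf (monomial k a) = a * df k := by
  unfold Lf
  show (monomial k a).sum _ = _
  rw [Polynomial.sum_monomial_index]
  · simp [mul_comm]
  · simp

/-- The coefficients. -/
noncomputable def ak (n k : ℕ) : ℝ := (-1) ^ k * (n.choose k : ℝ) / df (k + 1)

/-- The polynomial. -/
noncomputable def qn (n : ℕ) : ℝ[X] := ∑ k ∈ range (n + 1), monomial k (ak n k)

theorem Lf_Xmul (n j : ℕ) : Lf (X ^ j * qn n) = ∑ k ∈ range (n + 1), ak n k * df (j + k) := by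
  unfold qn
  rw [Finset.mul_sum, map_sum]
  refine Finset.sum_congr rfl fun k _ => ?_
  rw [X_pow_mul_monomial, Lf_monomial, add_comm k j]

/-- The quotients of the moments. -/
noncomputable def Pj (j : ℕ) : ℝ[X] := ∏ i ∈ range j, (C 2 * X + C (2 * (i : ℝ) + 3))

theorem Pj_deg (j : ℕ) : (Pj j).natDegree ≤ j := by
  unfold Pj
  refine (natDegree_prod_le _ _).trans ?_
  refine (Finset.sum_le_card_nsmul _ _ 1 ?_).trans ?_
  · intro i _
    exact natDegree_linear_le
  · simp

theorem df_Pj (j k : ℕ) : df (j + 1 + k) = df (k + 1) * (Pj j).eval (k : ℝ) := by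
  induction j with
  | zero => simp [Pj, add_comm]
  | succ j ih =>
    have h : j + 1 + 1 + k = (j + 1 + k) + 1 := by ring
    rw [h, df_succ, ih]
    unfold Pj
    rw [Finset.prod_range_succ, eval_mul]
    simp only [eval_add, eval_mul, eval_C, eval_X]
    push_cast
    ring

theorem Lf_zero (n j : ℕ) (hj : j < n) : Lf (X ^ (j + 1) * qn n) = 0 := by
  rw [Lf_Xmul]
  have h1 := congrFun (Polynomial.fwdDiff_iter_eq_zero_of_degree_lt (P := Pj j) (n := n)
    (lt_of_le_of_lt (Pj_deg j) hj)) 0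
  rw [fwdDiff_iter_eq_sum_shift] at h1
  simp only [Pi.zero_apply, zsmul_eq_mul, zero_add] at h1
  have h2 : ∑ k ∈ range (n + 1), ak n k * df (j + 1 + k) =
      (-1) ^ n * ∑ k ∈ range (n + 1), (((-1 : ℤ) ^ (n - k) * (n.choose k : ℤ) : ℤ) : ℝ) *
        (Pj j).eval (k • (1 : ℝ)) := by
    rw [Finset.mul_sum]
    refine Finset.sum_congr rfl fun k hk => ?_
    have hk' : k ≤ n := Nat.lt_succ_iff.mp (Finset.mem_range.mp hk)
    have h3 : (-1 : ℝ) ^ n * (-1) ^ (n - k) = (-1) ^ k := by
      rw [← pow_add]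
      have : n + (n - k) = k + 2 * (n - k) := by omega
      rw [this, pow_add, pow_mul]
      simp
    rw [df_Pj]
    unfold ak
    push_cast
    rw [← h3]
    simp only [nsmul_eq_mul, mul_one]
    have := (df_pos (k + 1)).ne'
    field_simp
  rw [h2, h1, mul_zero]

/-- The integral. -/
theorem sn_eq (n : ℕ) : ∑ k ∈ range (n + 1), ak n k * df (0 + k) = ∫ x in (0 : ℝ)..1, (1 - x ^ 2) ^ n := by
  have h1 : ∀ x : ℝ, (1 - x ^ 2) ^ n = ∑ k ∈ range (n + 1), ((-1) ^ k * (n.choose k : ℝ)) * x ^ (2 * k) := by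
    intro x
    have := add_pow (-(x ^ 2)) (1 : ℝ) n
    rw [show (1 : ℝ) - x ^ 2 = -(x ^ 2) + 1 by ring, this]
    refine Finset.sum_congr rfl fun k _ => ?_
    rw [one_pow, neg_pow, ← pow_mul]
    ring
  simp_rw [h1]
  rw [intervalIntegral.integral_finsetSum]
  · refine Finset.sum_congr rfl fun k _ => ?_
    rw [intervalIntegral.integral_const_mul, integral_pow]
    unfold ak
    rw [zero_add, df_succ]
    have := (df_pos k).ne'
    have h2 : (2 * (k : ℝ) + 1) ≠ 0 := by positivity
    push_cast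
    field_simp
    simp
  · intro k _
    exact (Continuous.intervalIntegrable (by fun_prop) _ _)

theorem sn_tendsto : Tendsto (fun n : ℕ => ∫ x in (0 : ℝ)..1, (1 - x ^ 2) ^ n) atTop (𝓝 0) := by
  have h := intervalIntegral.tendsto_integral_filter_of_dominated_convergence
    (μ := volume) (a := 0) (b := 1) (l := (atTop : Filter ℕ))
    (F := fun n x => (1 - x ^ 2) ^ n) (f := fun _ : ℝ => (0 : ℝ)) (fun _ => (1 : ℝ)) ?_ ?_ ?_ ?_
  · simpa using h
  · exact Eventually.of_forall fun n => (Continuous.aestronglyMeasurable (by fun_prop))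
  · refine Eventually.of_forall fun n => Eventually.of_forall fun x hx => ?_
    rw [Set.uIoc_of_le zero_le_one] at hx
    rw [norm_pow]
    refine pow_le_one₀ (norm_nonneg _) ?_
    rw [Real.norm_eq_abs, abs_le]
    constructor <;> nlinarith [hx.1, hx.2]
  · exact intervalIntegrable_const
  · refine Eventually.of_forall fun x hx => ?_
    rw [Set.uIoc_of_le zero_le_one] at hx
    refine tendsto_pow_atTop_nhds_zero_of_lt_one ?_ ?_
    · nlinarith [hx.1, hx.2]
    · have := pow_pos hx.1 2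
      linarith

theorem qn_eval (n : ℕ) : (qn n).eval 0 = 1 := by
  unfold qn
  rw [eval_finsetSum, Finset.sum_eq_single 0]
  · simp [ak, df]
  · intro k _ hk
    rw [eval_monomial]
    simp [hk]
  · intro h
    simp at h

theorem Lf_sq (n : ℕ) : Lf (qn n ^ 2) = ∫ x in (0 : ℝ)..1, (1 - x ^ 2) ^ n := by
  have h1 : qn n ^ 2 = ∑ k ∈ range (n + 1), (ak n k) • (X ^ k * qn n) := by
    rw [pow_two]
    nth_rewrite 1 [qn]
    rw [Finset.sum_mul]
    refine Finset.sum_congr rfl fun k _ => ?_
    rw [← C_mul_X_pow_eq_monomial, Algebra.smul_def, mul_assoc]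
    rfl
  rw [h1, map_sum, Finset.sum_range_succ', Finset.sum_eq_zero]
  · rw [zero_add, map_smul, Lf_Xmul, sn_eq]
    simp [ak, df]
  · intro k hk
    rw [map_smul, Lf_zero n k (Finset.mem_range.mp hk), smul_zero]

theorem st_HPOL : ST_HPOL := by
  intro ε hε
  obtain ⟨n, hn⟩ := (sn_tendsto.eventually (gt_mem_nhds hε)).exists
  refine ⟨qn n ^ 2, fun y _ => ?_, ?_, ?_⟩
  · rw [eval_pow]
    exact sq_nonneg _
  · rw [eval_pow, qn_eval, one_pow]
  · rw [← Lf_eq, Lf_sq]
    exact hn.le

end Pool.Agent.Helper36.T5
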